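import Pool.Agent.MP_af2a1c_lc.Lower
import Pool.Agent.MP_af2a1c_lc.Hyper
import Pool.Agent.MP_af2a1c_lc.Logic

/-! Strongly McDuff II_1 factors are not elementarily equivalent to the hyperfinite II_1 factor. -/

namespace Pool.Agent.Results.MP_af2a1c_lc.StronglyMcDuff

open Pool.Agent.McDuffR

universe u v

/-- Every strongly McDuff II_1 factor `M` satisfies `M ≢ R`. -/
theorem result (M : Type u) [CStarAlgebra M] [TracialVNA M] (R : Type v) [CStarAlgebra R]
    [TracialVNA R] (hM : IsStronglyMcDuff M) (hR : IsHyperfiniteII1Factor R) :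
    ¬ ElemEquiv M R := by
  intro h
  obtain ⟨N, _, _, S, _, _, hN, -, hG, -, hT⟩ := hM
  obtain ⟨k, a, ha, ε, hε, hy⟩ := lower_bound hN hG hT
  have h1 : ε ≤ Sentence.value M (flipSentence k) := le_value_flipSentence ⟨a, ha, hy⟩
  have h2 : Sentence.value R (flipSentence k) ≤ 0 :=
    value_flipSentence_le fun b hb ε hε => hyper_flip hR b hb hε
  have h3 := h (flipSentence k)
  linarith

end Pool.Agent.Results.MP_af2a1c_lc.StronglyMcDuff
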